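import Pool.Agent.Lib.MP_c44c69_co.Nice

/-!
# The product formula for the cross-index fails for every nice group of composite order
-/

namespace Pool.Agent.MP_c44c69_co

/-- There are finite free `G`-simplicial posets `P₁`, `P₂` for which the cross-index of `P₁ × P₂`
(componentwise order, diagonal action) is less than the minimum of the two cross-indices. -/
def ProductFormulaFails (G : Type) [Group G] : Prop :=
  ∃ (P₁ P₂ : Type) (_ : PartialOrder P₁) (_ : PartialOrder P₂)
    (_ : MulAction G P₁) (_ : MulAction G P₂),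
    Finite P₁ ∧ Finite P₂ ∧ IsGPoset G P₁ ∧ IsGPoset G P₂ ∧ IsFree G P₁ ∧ IsFree G P₂ ∧
    IsSimplicial P₁ ∧ IsSimplicial P₂ ∧
    Xind G (P₁ × P₂) < min (Xind G P₁) (Xind G P₂)

theorem fails_of_data (G : Type) [Group G] [Finite G] (h : HasData G) :
    ProductFormulaFails G := by
  obtain ⟨p, κ, η, hp, hκ, hη, hcent, hmin⟩ := h
  have hηord : (orderOf η).Prime := by
    rw [hη, orderOf_pow' _ hp.ne_zero, hκ, Nat.gcd_mul_left_left, Nat.mul_div_cancel _ hp.pos]
    exact hp
  have hf1 : IsFree G (Sd (Coind G η)) := Sd.isFree (Coind.isFree hmin)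
  have hf2 : IsFree G (Sec G η) := Sec.isFree η
  refine ⟨Sd (Coind G η), Sec G η, inferInstance, inferInstance, inferInstance, inferInstance,
    inferInstance, inferInstance, inferInstance, inferInstance, hf1, hf2,
    Sd.isSimplicial, Sec.isSimplicial η, ?_⟩
  have h1 : Xind G (Sd (Coind G η) × Sec G η) ≤ 1 := Xind_le Coind.prod_map
  have h2 : 2 ≤ Xind G (Sd (Coind G η)) :=
    two_le_Xind hf1 (no_map_first p hp κ η hκ hη hcent)
  have h3 : 2 ≤ Xind G (Sec G η) := two_le_Xind hf2 (Sec.no_map η hηord)
  exact lt_of_lt_of_le (lt_of_le_of_lt h1 (by norm_num)) (le_min h2 h3)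

end Pool.Agent.MP_c44c69_co

namespace Pool.Agent.Results.MP_c44c69_co.CompositeOrder

open Pool.Agent.MP_c44c69_co

/-- The product formula for the cross-index fails for some nice group; in fact it fails for every
nice group whose order is neither `1` nor a prime. -/
theorem result :
    (∃ (G : Type) (_ : Group G), Finite G ∧ IsNice G ∧ ProductFormulaFails G) ∧
    (∀ (G : Type) [Group G] [Finite G], IsNice G → Nat.card G ≠ 1 → ¬ (Nat.card G).Prime →
      ProductFormulaFails G) := by
  have key : ∀ (G : Type) [Group G] [Finite G], IsNice G → Nat.card G ≠ 1 →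
      ¬ (Nat.card G).Prime → ProductFormulaFails G :=
    fun G _ _ hG h1 h2 => fails_of_data G (hasData_of_nice G hG h1 h2)
  refine ⟨?_, key⟩
  have hc : Nat.card (Multiplicative (ZMod 4)) = 4 := by
    rw [Nat.card_congr Multiplicative.toAdd, Nat.card_zmod]
  have hn : IsNice (Multiplicative (ZMod 4)) := by
    left
    refine ⟨inferInstance, 2, 2, Nat.prime_two, ?_⟩
    rw [hc]; norm_num
  refine ⟨Multiplicative (ZMod 4), inferInstance, inferInstance, hn, key _ hn ?_ ?_⟩
  · rw [hc]; norm_num
  · rw [hc]; norm_num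

end Pool.Agent.Results.MP_c44c69_co.CompositeOrder
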